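import Pool.Agent.Run7.h872.WD.Defs

/-!
# Project WD of helper872, piece MOM (helper352): the first four moments agree
-/

set_option autoImplicit false

namespace Pool.Agent.Run7.h352.WD

open Finset Pool.Agent.Run7.h872.WD

section

variable {K : Type} [Field K] [Fintype K] [Algebra (ZMod 2) K]

omit [Fintype K] in
theorem psi_add (x y : K) : psi (x + y) = psi x * psi y := by
  unfold psi
  rw [map_add]
  generalize Algebra.trace (ZMod 2) K x = a
  generalize Algebra.trace (ZMod 2) K y = b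
  have h2 : ∀ c : ZMod 2, c = 0 ∨ c = 1 := by decide
  have h11 : (1 : ZMod 2) + 1 = 0 := by decide
  have h10 : (1 : ZMod 2) ≠ 0 := by decide
  rcases h2 a with rfl | rfl <;> rcases h2 b with rfl | rfl
  · simp
  · simp
  · simp
  · rw [if_pos h11, if_neg h10]
    norm_num

/-- the additive character -/
noncomputable def chi (K : Type) [Field K] [Algebra (ZMod 2) K] : AddChar K ℚ where
  toFun := psi
  map_zero_eq_one' := by
    unfold psi
    rw [map_zero, if_pos rfl]
  map_add_eq_mul' := psi_add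

omit [Fintype K] in
theorem chi_apply (x : K) : chi K x = psi x := rfl

omit [Fintype K] in
theorem chi_sum {ι : Type*} (s : Finset ι) (g : ι → K) :
    chi K (∑ i ∈ s, g i) = ∏ i ∈ s, chi K (g i) := by
  classical
  induction s using Finset.induction_on with
  | empty => rw [Finset.sum_empty, Finset.prod_empty, AddChar.map_zero_eq_one]
  | insert a s ha ih => rw [Finset.sum_insert ha, Finset.prod_insert ha, AddChar.map_add_eq_mul, ih]

theorem chi_prim : (chi K).IsPrimitive := by
  refine AddChar.IsPrimitive.of_ne_one ?_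
  intro h
  have : Module.Finite (ZMod 2) K := Module.Finite.of_finite
  obtain ⟨x, hx⟩ := Algebra.trace_surjective (ZMod 2) K 1
  have h1 : chi K x = 1 := by rw [h]; rfl
  rw [chi_apply] at h1
  unfold psi at h1
  rw [hx, if_neg (by decide)] at h1
  norm_num at h1

theorem sum_chi [DecidableEq K] (b : K) :
    ∑ x : K, chi K (x * b) = if b = 0 then (Fintype.card K : ℚ) else 0 := by
  have := AddChar.sum_mulShift b (chi_prim (K := K))
  rw [this]
  split_ifs <;> simp

open Classical in
theorem mom (e f k : ℕ) : ∑ v : K × K × K, S e f v ^ k =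
    (Fintype.card K : ℚ) ^ 3 * (((univ : Finset (Fin k → K)).filter fun p =>
      ∑ i, p i = 0 ∧ ∑ i, p i ^ e = 0 ∧ ∑ i, p i ^ f = 0).card : ℚ) := by
  have h1 : ∀ v : K × K × K, S e f v ^ k = ∑ p : Fin k → K,
      chi K (v.1 * ∑ i, p i) * (chi K (v.2.1 * ∑ i, p i ^ e) * chi K (v.2.2 * ∑ i, p i ^ f)) := by
    intro v
    unfold S
    rw [Fintype.sum_pow]
    refine Finset.sum_congr rfl fun p _ => ?_
    rw [← AddChar.map_add_eq_mul, ← AddChar.map_add_eq_mul, Finset.mul_sum, Finset.mul_sum,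
      Finset.mul_sum, ← Finset.sum_add_distrib, ← Finset.sum_add_distrib, chi_sum]
    refine Finset.prod_congr rfl fun i _ => ?_
    rw [chi_apply, add_assoc]
  rw [Finset.sum_congr rfl fun v _ => h1 v, Finset.sum_comm]
  have h2 : ∀ p : Fin k → K, ∑ v : K × K × K, chi K (v.1 * ∑ i, p i) *
      (chi K (v.2.1 * ∑ i, p i ^ e) * chi K (v.2.2 * ∑ i, p i ^ f)) =
      if (∑ i, p i = 0 ∧ ∑ i, p i ^ e = 0 ∧ ∑ i, p i ^ f = 0) then (Fintype.card K : ℚ) ^ 3
      else 0 := by
    intro p
    rw [Fintype.sum_prod_type]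
    have h3 : ∀ a : K, ∑ y : K × K, chi K (a * ∑ i, p i) *
        (chi K (y.1 * ∑ i, p i ^ e) * chi K (y.2 * ∑ i, p i ^ f)) =
        chi K (a * ∑ i, p i) * ((∑ b : K, chi K (b * ∑ i, p i ^ e)) *
          ∑ c : K, chi K (c * ∑ i, p i ^ f)) := by
      intro a
      rw [← Finset.mul_sum, Fintype.sum_prod_type, Finset.sum_mul_sum]
    rw [Finset.sum_congr rfl fun a _ => h3 a, ← Finset.sum_mul, sum_chi, sum_chi, sum_chi]
    by_cases a1 : ∑ i, p i = 0
    · by_cases a2 : ∑ i, p i ^ e = 0
      · by_cases a3 : ∑ i, p i ^ f = 0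
        · rw [if_pos a1, if_pos a2, if_pos a3, if_pos ⟨a1, a2, a3⟩]
          ring
        · simp only [a1, a2, a3, if_true, if_false, and_false, mul_zero]
      · simp only [a1, a2, if_true, if_false, and_false, false_and, mul_zero, zero_mul]
    · simp only [a1, if_false, false_and, zero_mul]
  rw [Finset.sum_congr rfl fun p _ => h2 p, ← Finset.sum_filter, Finset.sum_const, nsmul_eq_mul,
    mul_comm]

omit [Algebra (ZMod 2) K] in
theorem uv {j m : ℕ} (hm : Fintype.card K = 2 ^ m) (hg : Nat.gcd j m = 1) {u v : K}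
    (h : u ^ 2 ^ j * v = u * v ^ 2 ^ j) : u = 0 ∨ v = 0 ∨ u = v := by
  by_cases hu : u = 0
  · exact Or.inl hu
  by_cases hv : v = 0
  · exact Or.inr (Or.inl hv)
  right; right
  have hr : u / v ≠ 0 := div_ne_zero hu hv
  have h1 : (u / v) ^ 2 ^ j = u / v := by
    rw [div_pow, div_eq_div_iff (pow_ne_zero _ hv) hv]
    exact h
  have hpj : 0 < 2 ^ j := by positivity
  have h2 : (u / v) ^ (2 ^ j - 1) = 1 := by
    have h3 : (u / v) ^ (2 ^ j - 1) * (u / v) = 1 * (u / v) := by
      rw [← pow_succ, Nat.sub_add_cancel hpj, one_mul]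
      exact h1
    exact mul_right_cancel₀ hr h3
  have h4 : (u / v) ^ (2 ^ m - 1) = 1 := by
    rw [← hm]
    exact FiniteField.pow_card_sub_one_eq_one _ hr
  have h5 : orderOf (u / v) ∣ Nat.gcd (2 ^ j - 1) (2 ^ m - 1) :=
    Nat.dvd_gcd (orderOf_dvd_of_pow_eq_one h2) (orderOf_dvd_of_pow_eq_one h4)
  rw [Nat.pow_sub_one_gcd_pow_sub_one, hg] at h5
  have h6 : orderOf (u / v) = 1 := Nat.dvd_one.1 (by simpa using h5)
  have h7 : u / v = 1 := orderOf_eq_one_iff.1 h6
  exact (div_eq_one_iff_eq hv).1 h7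

theorem quad {j m : ℕ} (hm : Fintype.card K = 2 ^ m) (hg : Nat.gcd j m = 1) {x y z w : K}
    (h1 : x + y + z + w = 0)
    (h2 : x ^ (1 + 2 ^ j) + y ^ (1 + 2 ^ j) + z ^ (1 + 2 ^ j) + w ^ (1 + 2 ^ j) = 0) (n : ℕ) :
    x ^ n + y ^ n + z ^ n + w ^ n = 0 := by
  have : CharP K 2 := charP_of_injective_algebraMap (algebraMap (ZMod 2) K).injective 2
  have htwo : (2 : K) = 0 := CharTwo.two_eq_zero
  have hw : w = x + y + z := by
    have := CharTwo.add_eq_zero.1 h1
    exact this.symm
  have key : (x + y) ^ 2 ^ j * (x + z) = (x + y) * (x + z) ^ 2 ^ j := by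
    rw [← CharTwo.add_eq_zero]
    rw [hw] at h2
    simp only [pow_add, pow_one] at h2
    rw [add_pow_char_pow (x + y) z, add_pow_char_pow x y] at h2
    rw [add_pow_char_pow x y, add_pow_char_pow x z]
    linear_combination h2 - (y * y ^ 2 ^ j + z * z ^ 2 ^ j) * htwo
  rcases uv hm hg key with h | h | h
  · have hxy : x = y := CharTwo.add_eq_zero.1 h
    have hwz : w = z := by
      rw [hw, hxy, CharTwo.add_self_eq_zero, zero_add]
    rw [hwz, hxy, CharTwo.add_self_eq_zero, zero_add, CharTwo.add_self_eq_zero]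
  · have hxz : x = z := CharTwo.add_eq_zero.1 h
    have hwy : w = y := by
      rw [hw, hxz]
      linear_combination z * htwo
    rw [hwy, hxz]
    linear_combination (z ^ n + y ^ n) * htwo
  · have hyz : y = z := add_left_cancel h
    have hwx : w = x := by
      rw [hw, hyz]
      linear_combination z * htwo
    rw [hwx, hyz]
    linear_combination (z ^ n + x ^ n) * htwo

theorem triv {j m k : ℕ} (hm : Fintype.card K = 2 ^ m) (hg : Nat.gcd j m = 1) (hk : k ≤ 4)
    (p : Fin k → K) (h1 : ∑ i, p i = 0) (h2 : ∑ i, p i ^ (1 + 2 ^ j) = 0) (n : ℕ) (hn : n ≠ 0) :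
    ∑ i, p i ^ n = 0 := by
  have hz : (1 + 2 ^ j : ℕ) ≠ 0 := by positivity
  interval_cases k
  · simp
  · rw [Fin.sum_univ_one] at *
    rw [h1, zero_pow hn]
  · rw [Fin.sum_univ_two] at *
    have := quad hm hg (x := p 0) (y := p 1) (z := 0) (w := 0) (by simpa using h1)
      (by simpa [zero_pow hz] using h2) n
    simpa [zero_pow hn] using this
  · rw [Fin.sum_univ_three] at *
    have := quad hm hg (x := p 0) (y := p 1) (z := p 2) (w := 0) (by simpa using h1)
      (by simpa [zero_pow hz] using h2) n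
    simpa [zero_pow hn] using this
  · rw [Fin.sum_univ_four] at *
    exact quad hm hg h1 h2 n

end

/-- MOM -/
theorem t_MOM : S_MOM := by
  classical
  intro t ht K _ _ _ hK k hk
  rw [mom, mom]
  congr 3
  refine Finset.filter_congr fun p _ => ?_
  have g1 : Nat.gcd t (2 * t + 1) = 1 := by
    have : Nat.Coprime t (2 * t + 1) := by
      rw [Nat.coprime_mul_right_add_right]
      exact Nat.coprime_one_right t
    exact this
  constructor
  · rintro ⟨h1, h2, h3⟩
    exact ⟨h1, triv hK g1 hk p h1 h3 3 (by norm_num), triv hK g1 hk p h1 h3 5 (by norm_num)⟩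
  · rintro ⟨h1, h2, h3⟩
    have h2' : ∑ i, p i ^ (1 + 2 ^ 1) = 0 := h2
    exact ⟨h1, triv hK (Nat.gcd_one_left _) hk p h1 h2' _ (by positivity),
      triv hK (Nat.gcd_one_left _) hk p h1 h2' _ (by positivity)⟩

end Pool.Agent.Run7.h352.WD
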